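import Pool.Agent.SQD.Stmts

/-!
# Squad SQD, rows ZET and EUP
-/

set_option autoImplicit false

open Filter

open scoped BigOperators Topology

noncomputable section

namespace Pool.Agent.SQD.H49

open Pool.Agent.SQD

theorem step {s : ℝ} (hs : 1 < s) (n : ℕ) (hn : 1 ≤ n) :
    1 / ((n : ℝ) + 1) ^ s ≤ ((n : ℝ) ^ (1 - s) - ((n : ℝ) + 1) ^ (1 - s)) / (s - 1) := by
  have hn0 : (0 : ℝ) < n := by exact_mod_cast hn
  have hn1 : (0 : ℝ) < (n : ℝ) + 1 := by linarith
  rw [le_div_iff₀ (by linarith)]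
  have h1 : Real.log n ≤ Real.log ((n : ℝ) + 1) - 1 / ((n : ℝ) + 1) := by
    have h2 := Real.log_le_sub_one_of_pos (x := (n : ℝ) / (n + 1)) (by positivity)
    rw [Real.log_div hn0.ne' hn1.ne'] at h2
    have h3 : (n : ℝ) / (n + 1) - 1 = - (1 / ((n : ℝ) + 1)) := by
      field_simp
      ring
    linarith
  have h2 : ((n : ℝ) + 1) ^ (1 - s) * (1 + (s - 1) / ((n : ℝ) + 1)) ≤ (n : ℝ) ^ (1 - s) := by
    rw [Real.rpow_def_of_pos hn0, Real.rpow_def_of_pos hn1]
    have h3 : (s - 1) / ((n : ℝ) + 1) + 1 ≤ Real.exp ((s - 1) / ((n : ℝ) + 1)) :=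
      Real.add_one_le_exp _
    calc Real.exp (Real.log ((n : ℝ) + 1) * (1 - s)) * (1 + (s - 1) / ((n : ℝ) + 1))
        ≤ Real.exp (Real.log ((n : ℝ) + 1) * (1 - s)) * Real.exp ((s - 1) / ((n : ℝ) + 1)) := by
          apply mul_le_mul_of_nonneg_left _ (Real.exp_pos _).le
          linarith
      _ = Real.exp (Real.log ((n : ℝ) + 1) * (1 - s) + (s - 1) / ((n : ℝ) + 1)) := by
          rw [Real.exp_add]
      _ ≤ _ := by
          apply Real.exp_le_exp.2
          have h4 : (s - 1) * Real.log n ≤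
              (s - 1) * (Real.log ((n : ℝ) + 1) - 1 / ((n : ℝ) + 1)) :=
            mul_le_mul_of_nonneg_left h1 (by linarith)
          have h5 : (s - 1) / ((n : ℝ) + 1) = (s - 1) * (1 / ((n : ℝ) + 1)) := by ring
          rw [h5]
          linarith
  have h3 : 1 / ((n : ℝ) + 1) ^ s * (s - 1) =
      ((n : ℝ) + 1) ^ (1 - s) * ((s - 1) / ((n : ℝ) + 1)) := by
    rw [Real.rpow_sub hn1, Real.rpow_one]
    field_simp
  rw [h3]
  linarith

theorem zet : ZetStmt := by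
  intro s hs
  apply Real.tsum_le_of_sum_range_le
  · intro m
    positivity
  · intro n
    have h : ∀ n : ℕ, ∑ m ∈ Finset.range (n + 1), 1 / ((m : ℝ) + 1) ^ s ≤
        1 + (1 - ((n : ℝ) + 1) ^ (1 - s)) / (s - 1) := by
      intro n
      induction n with
      | zero => simp
      | succ n ih =>
        rw [Finset.sum_range_succ]
        have h1 := step hs (n + 1) (by omega)
        push_cast at h1 ⊢
        have h2 : (1 - ((n : ℝ) + 1 + 1) ^ (1 - s)) / (s - 1) =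
            (1 - ((n : ℝ) + 1) ^ (1 - s)) / (s - 1) +
            (((n : ℝ) + 1) ^ (1 - s) - ((n : ℝ) + 1 + 1) ^ (1 - s)) / (s - 1) := by ring
        rw [h2]
        linarith
    have hs1 : 0 < s - 1 := by linarith
    rcases n with _ | n
    · simp only [Finset.range_zero, Finset.sum_empty]
      positivity
    · refine (h n).trans ?_
      have h1 : (1 - ((n : ℝ) + 1) ^ (1 - s)) / (s - 1) ≤ 1 / (s - 1) := by
        apply div_le_div_of_nonneg_right _ hs1.le
        have : 0 ≤ ((n : ℝ) + 1) ^ (1 - s) := by positivity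
        linarith
      linarith

/-- `n ^ (-s)` as a multiplicative map -/
def F1 (s : ℝ) (hs : s ≠ 0) : ℕ →*₀ ℝ where
  toFun n := (n : ℝ) ^ (-s)
  map_zero' := by
    rw [Nat.cast_zero, Real.zero_rpow (neg_ne_zero.2 hs)]
  map_one' := by simp
  map_mul' m n := by
    rw [Nat.cast_mul, Real.mul_rpow (Nat.cast_nonneg m) (Nat.cast_nonneg n)]

/-- `f n n ^ (-s)` as a multiplicative map -/
def F2 (f : ℕ → ℝ) (s : ℝ) (hs : s ≠ 0) (h1 : f 1 = 1)
    (hm : ∀ m n, f (m * n) = f m * f n) : ℕ →*₀ ℝ where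
  toFun n := f n * F1 s hs n
  map_zero' := by rw [map_zero, mul_zero]
  map_one' := by rw [map_one, h1, mul_one]
  map_mul' m n := by
    rw [hm, map_mul]; ring

theorem eup : EupStmt := by
  intro f s T hs hT h0 h1 hm hv
  have hs0 : s ≠ 0 := by linarith
  have hf1 : ∀ m, |f m| ≤ 1 := by
    intro m
    rcases hv m with h | h | h <;> rw [h] <;> norm_num
  have S1 : Summable fun n : ℕ => ‖F1 s hs0 n‖ := by
    have : Summable fun n : ℕ => ((n : ℝ) ^ s)⁻¹ := Real.summable_nat_rpow_inv.2 hs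
    refine this.congr fun n => ?_
    change _ = ‖(n : ℝ) ^ (-s)‖
    rw [Real.norm_eq_abs, abs_of_nonneg (by positivity), Real.rpow_neg (by positivity)]
  have hle : ∀ n : ℕ, ‖F2 f s hs0 h1 hm n‖ ≤ ‖F1 s hs0 n‖ := by
    intro n
    change ‖f n * F1 s hs0 n‖ ≤ _
    rw [norm_mul]
    calc _ ≤ 1 * ‖F1 s hs0 n‖ := mul_le_mul_of_nonneg_right (hf1 n) (norm_nonneg _)
      _ = _ := one_mul _
  have S2 : Summable fun n : ℕ => ‖F2 f s hs0 h1 hm n‖ :=
    Summable.of_nonneg_of_le (fun _ => norm_nonneg _) hle S1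
  have P1 := EulerProduct.eulerProduct_completely_multiplicative_hasProd S1
  have P2 := EulerProduct.eulerProduct_completely_multiplicative_hasProd S2
  have P := P1.mul P2
  -- the factors
  have f1pos : ∀ p : Nat.Primes, 0 < F1 s hs0 p ∧ F1 s hs0 p < 1 := by
    intro p
    have hp : (1 : ℝ) < (p : ℕ) := by exact_mod_cast p.2.one_lt
    constructor
    · change (0 : ℝ) < ((p : ℕ) : ℝ) ^ (-s)
      positivity
    · change ((p : ℕ) : ℝ) ^ (-s) < 1
      exact Real.rpow_lt_one_of_one_lt_of_neg hp (by linarith)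
  have f2b : ∀ p : Nat.Primes, F2 f s hs0 h1 hm p = f p * F1 s hs0 p := fun p => rfl
  have f2lt : ∀ p : Nat.Primes, F2 f s hs0 h1 hm p < 1 := by
    intro p
    have h3 := f1pos p
    rw [f2b]
    rcases hv p with h | h | h <;> rw [h] <;> linarith
  have hfac : ∀ p : Nat.Primes, 1 ≤ (1 - F1 s hs0 p)⁻¹ * (1 - F2 f s hs0 h1 hm p)⁻¹ := by
    intro p
    have h3 := f1pos p
    have h4 := f2lt p
    rw [← mul_inv]
    apply (one_le_inv₀ (mul_pos (by linarith) (by linarith))).2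
    rw [f2b]
    rcases hv p with h | h | h <;> rw [h] <;> nlinarith
  have hge : ∀ U : Finset Nat.Primes, ∏ p ∈ U, ((1 - F1 s hs0 p)⁻¹ *
      (1 - F2 f s hs0 h1 hm p)⁻¹) ≤ (∑' n, F1 s hs0 n) * ∑' n, F2 f s hs0 h1 hm n := by
    intro U
    apply ge_of_tendsto P
    filter_upwards [eventually_ge_atTop U] with V hV
    rw [← Finset.prod_sdiff hV]
    have h5 : 1 ≤ ∏ p ∈ V \ U, ((1 - F1 s hs0 p)⁻¹ * (1 - F2 f s hs0 h1 hm p)⁻¹) := by
      have := Finset.prod_le_prod (s := V \ U) (f := fun _ : Nat.Primes => (1 : ℝ))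
        (g := fun p : Nat.Primes => ((1 - F1 s hs0 p)⁻¹ * (1 - F2 f s hs0 h1 hm p)⁻¹))
        (fun _ _ => zero_le_one) (fun p _ => hfac p)
      rwa [Finset.prod_const_one] at this
    have h6 : 0 ≤ ∏ p ∈ U, ((1 - F1 s hs0 p)⁻¹ * (1 - F2 f s hs0 h1 hm p)⁻¹) :=
      Finset.prod_nonneg fun p _ => le_trans zero_le_one (hfac p)
    nlinarith
  -- the sums
  have Z1 : ∑' n, F1 s hs0 n = ∑' m : ℕ, 1 / ((m : ℝ) + 1) ^ s := by
    rw [(summable_norm_iff.1 S1).tsum_eq_zero_add, map_zero, zero_add]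
    apply tsum_congr
    intro m
    change (((m + 1 : ℕ) : ℝ)) ^ (-s) = _
    rw [Real.rpow_neg (by positivity)]
    push_cast
    rw [one_div]
  have Z2 : ∑' n, F2 f s hs0 h1 hm n = ∑' m : ℕ, f (m + 1) / ((m : ℝ) + 1) ^ s := by
    rw [(summable_norm_iff.1 S2).tsum_eq_zero_add, map_zero, zero_add]
    apply tsum_congr
    intro m
    change f (m + 1) * (((m + 1 : ℕ) : ℝ)) ^ (-s) = _
    rw [Real.rpow_neg (by positivity)]
    push_cast
    rfl
  rw [Z1, Z2] at hge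
  set Z := ∑' m : ℕ, 1 / ((m : ℝ) + 1) ^ s with hZ
  set W := ∑' m : ℕ, f (m + 1) / ((m : ℝ) + 1) ^ s with hW
  have hZ0 : 0 ≤ Z := tsum_nonneg fun m => by positivity
  have hZW : 1 ≤ Z * W := by
    have := hge ∅
    rwa [Finset.prod_empty] at this
  have hW0 : 0 < W := by
    by_contra hcon
    push Not at hcon
    nlinarith
  have hZpos : 0 < Z := by
    rcases hZ0.lt_or_eq with h | h
    · exact h
    · rw [← h] at hZW
      linarith
  refine ⟨hW0, ?_⟩
  rw [← Real.log_mul hZpos.ne' hW0.ne']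
  have h7 := hge (T.subtype Nat.Prime)
  have h8 := Finset.prod_subtype_of_mem (s := T) (p := Nat.Prime)
    (fun q : ℕ => (1 - F1 s hs0 q)⁻¹ * (1 - F2 f s hs0 h1 hm q)⁻¹) hT
  have h7' : ∏ q ∈ T, ((1 - F1 s hs0 q)⁻¹ * (1 - F2 f s hs0 h1 hm q)⁻¹) ≤ Z * W := by
    rw [← h8]
    exact h7
  have hpos : ∀ q ∈ T, 0 < (1 - F1 s hs0 q)⁻¹ * (1 - F2 f s hs0 h1 hm q)⁻¹ := fun q hq =>
    lt_of_lt_of_le one_pos (hfac ⟨q, hT q hq⟩)
  have h9 := Real.log_le_log (Finset.prod_pos hpos) h7'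
  rw [Real.log_prod (fun q hq => (hpos q hq).ne')] at h9
  refine le_trans (Finset.sum_le_sum fun q hq => ?_) h9
  have a1 := f1pos ⟨q, hT q hq⟩
  have a2 := f2lt ⟨q, hT q hq⟩
  change 0 < F1 s hs0 q ∧ F1 s hs0 q < 1 at a1
  change F2 f s hs0 h1 hm q < 1 at a2
  have a3 : Real.log (1 - F1 s hs0 q) ≤ - F1 s hs0 q := by
    have := Real.log_le_sub_one_of_pos (x := 1 - F1 s hs0 q) (by linarith)
    linarith
  have a4 : Real.log (1 - F2 f s hs0 h1 hm q) ≤ - F2 f s hs0 h1 hm q := by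
    have := Real.log_le_sub_one_of_pos (x := 1 - F2 f s hs0 h1 hm q) (by linarith)
    linarith
  have b1 : (1 - F1 s hs0 q)⁻¹ ≠ 0 := inv_ne_zero (by linarith)
  have b2 : (1 - F2 f s hs0 h1 hm q)⁻¹ ≠ 0 := inv_ne_zero (by linarith)
  rw [Real.log_mul b1 b2, Real.log_inv, Real.log_inv]
  have e1 : (1 + f q) / (q : ℝ) ^ s = F1 s hs0 q + F2 f s hs0 h1 hm q := by
    change _ = (q : ℝ) ^ (-s) + f q * (q : ℝ) ^ (-s)
    rw [Real.rpow_neg (by positivity)]
    ring
  rw [e1]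
  linarith

end Pool.Agent.SQD.H49
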